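import Pool.Agent.Helper59.LUC.Goals

set_option autoImplicit false

open Polynomial

namespace Pool.Agent.Helper59.LUC

namespace PkRK5

/-- the ring of algebraic integers -/
abbrev R : Subalgebra ℤ ℂ := integralClosure ℤ ℂ

open Classical in
/-- totalised lift of a complex number to the algebraic integers -/
noncomputable def lift (x : ℂ) : R := if h : IsIntegral ℤ x then ⟨x, h⟩ else 0

lemma lift_coe {x : ℂ} (h : IsIntegral ℤ x) : ((lift x : R) : ℂ) = x := by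
  unfold lift
  rw [dif_pos h]

lemma isIntegral_root {z : ℂ} {r : ℕ} (hr : 1 ≤ r) (hz : z ^ r = 1) : IsIntegral ℤ z := by
  refine IsIntegral.of_pow (n := r) (by omega) ?_
  rw [hz]
  exact isIntegral_one

lemma not_isUnit {p : ℕ} (hp : p.Prime) : ¬ IsUnit ((p : ℕ) : R) := by
  intro h
  obtain ⟨x, hx⟩ := h.exists_right_inv
  have h1 : ((p : ℕ) : ℂ) * (x : ℂ) = 1 := by
    have := congrArg (fun y : R => (y : ℂ)) hx
    simpa using this
  have hp0 : ((p : ℕ) : ℂ) ≠ 0 := by exact_mod_cast hp.ne_zero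
  have h2 : (x : ℂ) = algebraMap ℚ ℂ (1 / (p : ℚ)) := by
    rw [eq_comm]
    simp only [map_div₀, map_one, map_natCast]
    field_simp
    exact h1.symm
  have h3 : IsIntegral ℤ (x : ℂ) := x.2
  rw [h2] at h3
  have h4 : IsIntegral ℤ (1 / (p : ℚ)) :=
    (isIntegral_algebraMap_iff (FaithfulSMul.algebraMap_injective ℚ ℂ)).mp h3
  obtain ⟨n, hn⟩ := IsIntegrallyClosed.isIntegral_iff.mp h4
  have hp0' : (p : ℚ) ≠ 0 := by exact_mod_cast hp.ne_zero
  have h5 : (n : ℚ) * p = 1 := by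
    have : (n : ℚ) = 1 / p := by simpa using hn
    rw [this]
    field_simp
  have h6 : n * (p : ℤ) = 1 := by exact_mod_cast h5
  have h7 : (p : ℤ) ∣ 1 := ⟨n, by linarith⟩
  have h8 : (p : ℤ) = 1 := Int.eq_one_of_dvd_one (by positivity) h7
  have := hp.one_lt
  omega

/-- a ring homomorphism to a domain killing `p` does not kill integers prime to `p` -/
lemma map_int_ne {k : Type*} [CommRing k] [Nontrivial k] (φ : R →+* k) {p : ℕ} (hp : p.Prime)
    (h0 : φ ((p : ℕ) : R) = 0) {n : ℤ} (hn : ¬ (p : ℤ) ∣ n) : φ ((n : ℤ) : R) ≠ 0 := by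
  intro h
  have h1 : IsCoprime n (p : ℤ) := by
    rw [isCoprime_comm]
    exact ((Nat.prime_iff_prime_int.mp hp).coprime_iff_not_dvd).mpr hn
  obtain ⟨a, b, hab⟩ := h1
  have h2 : φ ((a * n + b * (p : ℤ) : ℤ) : R) = 1 := by
    rw [hab]; simp
  have h3 : φ (((p : ℤ) : ℤ) : R) = 0 := by
    simpa using h0
  rw [Int.cast_add, Int.cast_mul, Int.cast_mul, map_add, map_mul, map_mul, h, h3] at h2
  simp at h2

variable {T M : ℤ} {η : ℂ}

lemma lam_int (h : Ctx T M η) : IsIntegral ℤ ((M : ℂ) * η) := by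
  refine ⟨X ^ 2 - C T * X + C (M ^ 2), ?_, ?_⟩
  · have : (X ^ 2 - C T * X + C (M ^ 2) : ℤ[X]) = X ^ 2 - (C T * X - C (M ^ 2)) := by ring
    rw [this]
    refine monic_X_pow_sub (n := 2) ?_
    refine lt_of_le_of_lt (b := (1 : WithBot ℕ)) ?_ (by norm_num)
    refine (degree_sub_le _ _).trans ?_
    refine max_le ?_ ?_
    · exact (degree_C_mul_X_le T)
    · exact degree_C_le.trans (by norm_num)
  · have h1 := h.hη
    simp only [eval₂_add, eval₂_sub, eval₂_pow, eval₂_X, eval₂_mul, eval₂_C]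
    simp only [algebraMap_int_eq, eq_intCast, Int.cast_pow]
    linear_combination (M : ℂ) * h1

lemma lam'_int (h : Ctx T M η) : IsIntegral ℤ ((M : ℂ) * η⁻¹) := by
  have h1 : (M : ℂ) * η⁻¹ = (T : ℂ) - (M : ℂ) * η := by
    have := h.add_inv
    linear_combination this
  rw [h1]
  exact (isIntegral_intCast T).sub (lam_int h)
where
  isIntegral_intCast (n : ℤ) : IsIntegral ℤ (n : ℂ) := by
    have := isIntegral_algebraMap (R := ℤ) (A := ℂ) (x := n)
    simpa using this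

/-- the local factor -/
noncomputable def nu (M : ℤ) (η z : ℂ) : ℂ := 2 * M - z⁻¹ * (M * η) - z * (M * η⁻¹)

lemma nu_eq (h : Ctx T M η) {z : ℂ} (hz : ‖z‖ = 1) :
    (((M : ℝ) * ‖η - z‖ ^ 2 : ℝ) : ℂ) = nu M η z := by
  have h1 := h.normSq_sub z hz
  rw [Complex.ofReal_mul, h1]
  unfold nu
  push_cast
  ring

lemma nu_int (h : Ctx T M η) {z : ℂ} (hz : IsIntegral ℤ z) (hz' : IsIntegral ℤ z⁻¹) :
    IsIntegral ℤ (nu M η z) := by
  unfold nu
  refine IsIntegral.sub (IsIntegral.sub ?_ ?_) ?_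
  · have := isIntegral_algebraMap (R := ℤ) (A := ℂ) (x := 2 * M)
    simpa using this
  · exact hz'.mul (lam_int h)
  · exact hz.mul (lam'_int h)

/-- if a homomorphism to a domain kills the local factor at `z`, then `lam` is congruent to `z M` -/
lemma key (h : Ctx T M η) {k : Type*} [CommRing k] [IsDomain k] (φ : R →+* k) {z : ℂ} (hz0 : z ≠ 0)
    (hz : IsIntegral ℤ z) (hz' : IsIntegral ℤ z⁻¹) (hnu : φ (lift (nu M η z)) = 0) :
    φ (lift ((M : ℂ) * η)) = φ (lift z) * φ ((M : ℤ) : R) := by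
  have hn := h.ne_zero
  have e : lift z * lift ((M : ℂ) * η) * lift (nu M η z) = -(lift ((M : ℂ) * η) - lift z * ((M : ℤ) : R)) ^ 2 := by
    apply Subtype.ext
    push_cast
    rw [lift_coe hz, lift_coe (lam_int h), lift_coe (nu_int h hz hz')]
    unfold nu
    field_simp
    ring
  have e2 := congrArg φ e
  rw [map_mul, hnu, mul_zero, map_neg, map_pow, map_sub, map_mul] at e2
  have e3 : (φ (lift ((M : ℂ) * η)) - φ (lift z) * φ ((M : ℤ) : R)) ^ 2 = 0 := by
    have := e2.symm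
    rwa [neg_eq_zero] at this
  exact sub_eq_zero.mp (pow_eq_zero_iff (two_ne_zero) |>.mp e3)

lemma exists_zero (h : Ctx T M η) {k : Type*} [CommRing k] [IsDomain k] (φ : R →+* k) {p : ℕ}
    (h0 : φ ((p : ℕ) : R) = 0) (r : ℕ) (hr : 1 ≤ r) (O : Finset ℂ) (f : ℂ → ℂ)
    (hf : ∀ z ∈ O, (f z) ^ r = 1) (N : ℕ)
    (hN : (N : ℝ) = ∏ z ∈ O, ((M : ℝ) * ‖η - f z‖ ^ 2)) (hp : p ∣ N) :
    ∃ z ∈ O, φ (lift ((M : ℂ) * η)) = φ (lift (f z)) * φ ((M : ℤ) : R) := by
  have hint : ∀ z ∈ O, IsIntegral ℤ (f z) ∧ IsIntegral ℤ (f z)⁻¹ ∧ f z ≠ 0 ∧ ‖f z‖ = 1 := by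
    intro z hz
    have h1 := hf z hz
    refine ⟨isIntegral_root hr h1, isIntegral_root hr (by rw [inv_pow, h1, inv_one]), ?_, ?_⟩
    · intro h2
      rw [h2, zero_pow (by omega)] at h1
      exact zero_ne_one h1
    · have h2 : ‖f z‖ ^ r = 1 := by rw [← norm_pow, h1, norm_one]
      exact (pow_eq_one_iff_of_nonneg (norm_nonneg _) (by omega)).mp h2
  have e1 : ((N : ℕ) : R) = ∏ z ∈ O, lift (nu M η (f z)) := by
    apply Subtype.ext
    have h4 : ((∏ z ∈ O, lift (nu M η (f z)) : R) : ℂ) = ∏ z ∈ O, ((lift (nu M η (f z)) : R) : ℂ) :=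
      map_prod (R.val) _ _
    rw [h4]
    have h2 : ((N : ℝ) : ℂ) = ∏ z ∈ O, nu M η (f z) := by
      rw [hN, Complex.ofReal_prod]
      exact Finset.prod_congr rfl fun z hz => nu_eq h (hint z hz).2.2.2
    have h3 : ∏ z ∈ O, ((lift (nu M η (f z)) : R) : ℂ) = ∏ z ∈ O, nu M η (f z) :=
      Finset.prod_congr rfl fun z hz => lift_coe (nu_int h (hint z hz).1 (hint z hz).2.1)
    rw [h3, ← h2]
    simp
  have e2 : φ ((N : ℕ) : R) = 0 := by
    obtain ⟨c, rfl⟩ := hp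
    rw [Nat.cast_mul, map_mul, h0, zero_mul]
  rw [e1, map_prod] at e2
  obtain ⟨z, hz, hz0⟩ := Finset.prod_eq_zero_iff.mp e2
  exact ⟨z, hz, key h φ (hint z hz).2.2.1 (hint z hz).1 (hint z hz).2.1 hz0⟩

theorem thm : G_RK5 := by
  intro T M η h r p hr hp hpr hpM O hO hO' NA NB hA hB ⟨hpA, hpB⟩
  -- a maximal ideal above `p`
  have htop : Ideal.span {((p : ℕ) : R)} ≠ ⊤ := by
    rw [Ne, Ideal.span_singleton_eq_top]
    exact not_isUnit hp
  obtain ⟨P, hP, hle⟩ := Ideal.exists_le_maximal _ htop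
  have hPp : P.IsPrime := hP.isPrime
  let φ : R →+* (R ⧸ P) := Ideal.Quotient.mk P
  have hdom : IsDomain (R ⧸ P) := Ideal.Quotient.isDomain P
  have h0 : φ ((p : ℕ) : R) = 0 :=
    Ideal.Quotient.eq_zero_iff_mem.mpr (hle (Ideal.mem_span_singleton_self _))
  have hroot : ∀ z ∈ O, z ^ r = 1 := fun z hz => (hO z hz).pow_eq_one
  obtain ⟨z₁, hz₁, e₁⟩ := exists_zero h φ h0 r hr O (fun z => z) hroot NA (by simpa using hA) hpA
  obtain ⟨z₂, hz₂, e₂⟩ := exists_zero h φ h0 r hr O (fun z => z⁻¹)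
    (fun z hz => by rw [inv_pow, hroot z hz, inv_one]) NB hB hpB
  have hMne : φ ((M : ℤ) : R) ≠ 0 := map_int_ne φ hp h0 hpM
  have e₃ : φ (lift z₁) = φ (lift z₂⁻¹) := mul_right_cancel₀ hMne (e₁.symm.trans e₂)
  have hi₁ := isIntegral_root hr (hroot z₁ hz₁)
  have hi₂ := isIntegral_root hr (hroot z₂ hz₂)
  have hi₂' : IsIntegral ℤ z₂⁻¹ := isIntegral_root hr (by rw [inv_pow, hroot z₂ hz₂, inv_one])
  have hz₂0 : z₂ ≠ 0 := by
    intro h2
    have h1 := hroot z₂ hz₂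
    rw [h2, zero_pow (by omega)] at h1
    exact zero_ne_one h1
  have e₄ : φ (lift (z₁ * z₂)) = 1 := by
    have a : lift (z₁ * z₂) = lift z₁ * lift z₂ := by
      apply Subtype.ext
      push_cast
      rw [lift_coe (hi₁.mul hi₂), lift_coe hi₁, lift_coe hi₂]
    have b : lift z₂⁻¹ * lift z₂ = 1 := by
      apply Subtype.ext
      push_cast
      rw [lift_coe hi₂', lift_coe hi₂, inv_mul_cancel₀ hz₂0]
    rw [a, map_mul, e₃, ← map_mul, b, map_one]
  by_cases hw : z₁ * z₂ = 1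
  · have : z₂⁻¹ = z₁ := (eq_inv_of_mul_eq_one_left hw).symm
    exact hO' z₂ hz₂ (this ▸ hz₁)
  · have hwr : (z₁ * z₂) ^ r = 1 := by rw [mul_pow, hroot z₁ hz₁, hroot z₂ hz₂, one_mul]
    have hg : ∑ i ∈ Finset.range r, (z₁ * z₂) ^ i = 0 := by
      have := geom_sum_mul (z₁ * z₂) r
      rw [hwr, sub_self] at this
      rcases mul_eq_zero.mp this with h1 | h1
      · exact h1
      · exact absurd (sub_eq_zero.mp h1) hw
    have hg' : ∑ i ∈ Finset.range r, (lift (z₁ * z₂)) ^ i = 0 := by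
      apply Subtype.ext
      push_cast
      rw [lift_coe (hi₁.mul hi₂)]
      exact hg
    have hg2 := congrArg φ hg'
    rw [map_sum, map_zero] at hg2
    simp only [map_pow, e₄, one_pow, Finset.sum_const, Finset.card_range, nsmul_eq_mul, mul_one] at hg2
    have h5 : φ (((r : ℤ) : ℤ) : R) ≠ 0 := map_int_ne φ hp h0 (by exact_mod_cast hpr)
    apply h5
    rw [Int.cast_natCast, map_natCast]
    exact hg2

end PkRK5

end Pool.Agent.Helper59.LUC
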